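import Mathlib

/-!
# The extreme points of the convex hull of the conjugate degree sequences

For even `n` the hull is a simplex whose vertices come from the regular graphs. For odd `n` the
extreme points come from the regular graphs and from the graphs with `n - 1` vertices of one odd
degree and one vertex of even degree.
-/

set_option autoImplicit false

open Finset
open scoped Classical

namespace Pool.Agent.Results.MP_1867d3_co.ExtremePoints

/-- The conjugate degree sequence: `conj G k` (`k = 0, …, n - 1`) is the number of vertices of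
degree at least `k + 1`. -/
noncomputable def conj {n : ℕ} (G : SimpleGraph (Fin n)) : Fin n → ℝ :=
  fun k => (#{v | (k : ℕ) + 1 ≤ G.degree v} : ℕ)

/-- The polytope `C_n`. -/
noncomputable def C (n : ℕ) : Set (Fin n → ℝ) :=
  convexHull ℝ (Set.range (conj (n := n)))

/-- `pt n r s` is the conjugate of the sequence with `n - 1` terms equal to `s` and one term equal
to `r`. -/
noncomputable def pt (n r s : ℕ) : Fin n → ℝ :=
  fun k => (if (k : ℕ) + 1 ≤ s then (n : ℝ) - 1 else 0) + (if (k : ℕ) + 1 ≤ r then 1 else 0)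

/-- all vertices but one, of degree `r`, have degree `s` -/
def Deg {V : Type} [Fintype V] (G : SimpleGraph V) (r s : ℕ) : Prop :=
  ∃ v, G.degree v = r ∧ ∀ w ≠ v, G.degree w = s

/-- admissible pairs -/
def Adm (n r s : ℕ) : Prop :=
  r < n ∧ s < n ∧ ((r = s ∧ Even (n * r)) ∨ (Odd n ∧ Even r ∧ Odd s))

/-! ### Existence of graphs -/

theorem iso_degree {V W : Type} [Fintype V] [Fintype W] (G : SimpleGraph V) (H : SimpleGraph W)
    (f : G ≃g H) (v : V) : H.degree (f v) = G.degree v := by
  rw [← SimpleGraph.card_neighborSet_eq_degree, ← SimpleGraph.card_neighborSet_eq_degree]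
  exact (Fintype.card_congr (f.mapNeighborSet v)).symm

theorem deg_transfer {V : Type} [Fintype V] (G : SimpleGraph V) {n r s : ℕ}
    (hn : Fintype.card V = n) (h : Deg G r s) : ∃ H : SimpleGraph (Fin n), Deg H r s := by
  obtain ⟨v, hv, hw⟩ := h
  refine ⟨G.overFin hn, G.overFinIso hn v, ?_, fun w hwv => ?_⟩
  · rw [iso_degree]; exact hv
  · obtain ⟨w, rfl⟩ := (G.overFinIso hn).surjective w
    rw [iso_degree]
    exact hw w fun h => hwv (by rw [h])

/-- the sum graph with one additional vertex -/
def sumGraph (m : ℕ) (S : Finset (ZMod m)) : SimpleGraph (Option (ZMod m)) where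
  Adj a b := match a, b with
    | none, none => False
    | none, some x => x + x ∈ S
    | some x, none => x + x ∈ S
    | some x, some y => x ≠ y ∧ x + y ∈ S
  symm := ⟨by
    rintro (_ | x) (_ | y) h
    · exact h
    · exact h
    · exact h
    · exact ⟨h.1.symm, by rw [add_comm]; exact h.2⟩⟩
  loopless := ⟨by
    rintro (_ | x) h
    · exact h
    · exact h.1 rfl⟩

theorem two_mul_half (k : ℕ) : (2 : ZMod (2 * k + 1)) * ((k + 1 : ℕ) : ZMod (2 * k + 1)) = 1 := by
  have h : ((2 * k + 1 : ℕ) : ZMod (2 * k + 1)) = 0 := ZMod.natCast_self _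
  push_cast at h ⊢
  linear_combination h

theorem sumGraph_degree (k : ℕ) (S : Finset (ZMod (2 * k + 1))) (v : Option (ZMod (2 * k + 1))) :
    (sumGraph (2 * k + 1) S).degree v = S.card := by
  have h2 := two_mul_half k
  set e := ((k + 1 : ℕ) : ZMod (2 * k + 1)) with he
  rcases v with _ | x
  · have : (sumGraph (2 * k + 1) S).neighborFinset none = S.image fun c => some (c * e) := by
      ext w
      rw [SimpleGraph.mem_neighborFinset, Finset.mem_image]
      rcases w with _ | y
      · simp [sumGraph]
      · constructor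
        · intro h
          exact ⟨y + y, h, by rw [Option.some.injEq]; linear_combination y * h2⟩
        · rintro ⟨c, hc, h⟩
          rw [Option.some.injEq] at h
          show y + y ∈ S
          have : y + y = c := by rw [← h]; linear_combination c * h2
          rwa [this]
    rw [← SimpleGraph.card_neighborFinset_eq_degree, this, Finset.card_image_of_injOn]
    intro a _ b _ h
    simp only [Option.some.injEq] at h
    linear_combination 2 * h - (a - b) * h2
  · have : (sumGraph (2 * k + 1) S).neighborFinset (some x) =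
        S.image fun c => if c - x = x then none else some (c - x) := by
      ext w
      rw [SimpleGraph.mem_neighborFinset, Finset.mem_image]
      rcases w with _ | y
      · constructor
        · intro h
          exact ⟨x + x, h, by simp⟩
        · rintro ⟨c, hc, h⟩
          split_ifs at h with h1
          show x + x ∈ S
          have : x + x = c := by linear_combination (-1 : ZMod (2 * k + 1)) * h1
          rwa [this]
      · constructor
        · intro h
          refine ⟨x + y, h.2, ?_⟩
          rw [add_sub_cancel_left, if_neg h.1.symm]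
        · rintro ⟨c, hc, h⟩
          split_ifs at h with h1
          rw [Option.some.injEq] at h
          refine ⟨fun hxy => h1 (by rw [h, hxy]), ?_⟩
          rwa [← h, add_sub_cancel]
    rw [← SimpleGraph.card_neighborFinset_eq_degree, this, Finset.card_image_of_injOn]
    intro a _ b _ h
    simp only at h
    split_ifs at h with h1 h3 h3
    · rw [sub_eq_iff_eq_add] at h1 h3
      rw [h1, h3]
    · rw [Option.some.injEq] at h
      exact sub_left_injective h

/-- the perfect matching `x + y = 0` of the sum graph -/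
def inv (m : ℕ) : Option (ZMod m) → Option (ZMod m)
  | none => some 0
  | some x => if x = 0 then none else some (-x)

theorem inv_inv' (m : ℕ) (v : Option (ZMod m)) : inv m (inv m v) = v := by
  rcases v with _ | x
  · simp [inv]
  · by_cases h : x = 0 <;> simp [inv, h]

theorem adj_inv (k : ℕ) (S : Finset (ZMod (2 * k + 1))) (h0 : 0 ∈ S)
    (v : Option (ZMod (2 * k + 1))) : (sumGraph (2 * k + 1) S).Adj v (inv _ v) := by
  rcases v with _ | x
  · show (0 : ZMod (2 * k + 1)) + 0 ∈ S
    rwa [add_zero]
  · by_cases h : x = 0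
    · rw [inv, if_pos h]
      show x + x ∈ S
      rwa [h, add_zero]
    · rw [inv, if_neg h]
      refine ⟨fun hx => h ?_, by rwa [add_neg_cancel]⟩
      have h2 := two_mul_half k
      linear_combination ((k + 1 : ℕ) : ZMod (2 * k + 1)) * hx - x * h2

/-- a subset of given even cardinality closed under an involution without fixed points -/
theorem exists_closed {V : Type} [Fintype V] (σ : V → V) (h1 : ∀ v, σ (σ v) = v)
    (h2 : ∀ v, σ v ≠ v) (t : ℕ) (ht : 2 * t ≤ Fintype.card V) :
    ∃ U : Finset V, U.card = 2 * t ∧ ∀ v ∈ U, σ v ∈ U := by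
  induction t with
  | zero => exact ⟨∅, by simp, by simp⟩
  | succ t ih =>
    obtain ⟨U, hU, hc⟩ := ih (by omega)
    have : ∃ v, v ∉ U := by
      by_contra hcon
      push Not at hcon
      have : U = univ := Finset.eq_univ_iff_forall.2 hcon
      rw [this, Finset.card_univ] at hU
      omega
    obtain ⟨v, hv⟩ := this
    have hv' : σ v ∉ U := fun h => hv (by rw [← h1 v]; exact hc _ h)
    refine ⟨insert v (insert (σ v) U), ?_, ?_⟩
    · rw [Finset.card_insert_of_notMem, Finset.card_insert_of_notMem hv', hU]
      · ring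
      · rw [Finset.mem_insert, not_or]
        exact ⟨(h2 v).symm, hv⟩
    · intro w hw
      simp only [Finset.mem_insert] at hw ⊢
      rcases hw with rfl | rfl | hw
      · exact Or.inr (Or.inl rfl)
      · exact Or.inl (h1 _)
      · exact Or.inr (Or.inr (hc w hw))

/-- a new vertex is joined to `U` and the matching edges in `U` are removed -/
def addVertex {V : Type} (G : SimpleGraph V) (σ : V → V) (h1 : ∀ v, σ (σ v) = v) (U : Finset V)
    (hU : ∀ v ∈ U, σ v ∈ U) : SimpleGraph (Option V) where
  Adj a b := match a, b with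
    | none, none => False
    | none, some x => x ∈ U
    | some x, none => x ∈ U
    | some x, some y => G.Adj x y ∧ ¬ (x ∈ U ∧ y = σ x)
  symm := ⟨by
    rintro (_ | x) (_ | y) h
    · exact h
    · exact h
    · exact h
    · refine ⟨h.1.symm, fun h' => h.2 ⟨?_, ?_⟩⟩
      · rw [h'.2]; exact hU _ h'.1
      · rw [h'.2, h1]⟩
  loopless := ⟨by
    rintro (_ | x) h
    · exact h
    · exact G.loopless.irrefl _ h.1⟩

theorem addVertex_deg {V : Type} [Fintype V] (G : SimpleGraph V) (σ : V → V)
    (h1 : ∀ v, σ (σ v) = v) (hadj : ∀ v, G.Adj v (σ v)) (U : Finset V)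
    (hU : ∀ v ∈ U, σ v ∈ U) (s : ℕ) (hG : ∀ v, G.degree v = s) :
    Deg (addVertex G σ h1 U hU) U.card s := by
  refine ⟨none, ?_, ?_⟩
  · have : (addVertex G σ h1 U hU).neighborFinset none = U.image some := by
      ext w
      rw [SimpleGraph.mem_neighborFinset, Finset.mem_image]
      rcases w with _ | y
      · simp [addVertex]
      · simp [addVertex]
    rw [← SimpleGraph.card_neighborFinset_eq_degree, this,
      Finset.card_image_of_injective _ (Option.some_injective _)]
  · intro w hw
    obtain ⟨x, rfl⟩ := Option.ne_none_iff_exists'.1 hw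
    rw [← hG x, ← SimpleGraph.card_neighborFinset_eq_degree,
      ← SimpleGraph.card_neighborFinset_eq_degree]
    by_cases hx : x ∈ U
    · have : (addVertex G σ h1 U hU).neighborFinset (some x) =
          insert none (((G.neighborFinset x).erase (σ x)).image some) := by
        ext w
        rw [SimpleGraph.mem_neighborFinset, Finset.mem_insert, Finset.mem_image]
        rcases w with _ | y
        · simp [addVertex, hx]
        · simp [addVertex, hx, and_comm]
      rw [this, Finset.card_insert_of_notMem (by simp),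
        Finset.card_image_of_injective _ (Option.some_injective _),
        Finset.card_erase_of_mem ((SimpleGraph.mem_neighborFinset _ _ _).2 (hadj x))]
      have : 0 < (G.neighborFinset x).card :=
        Finset.card_pos.2 ⟨σ x, (SimpleGraph.mem_neighborFinset _ _ _).2 (hadj x)⟩
      omega
    · have : (addVertex G σ h1 U hU).neighborFinset (some x) =
          (G.neighborFinset x).image some := by
        ext w
        rw [SimpleGraph.mem_neighborFinset, Finset.mem_image]
        rcases w with _ | y
        · simp [addVertex, hx]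
        · simp [addVertex, hx]
      rw [this, Finset.card_image_of_injective _ (Option.some_injective _)]

theorem exists_almost (m r s : ℕ) (hr : Even r) (hrm : r ≤ 2 * m + 2) (hs : 1 ≤ s)
    (hsm : s ≤ 2 * m + 1) : ∃ H : SimpleGraph (Fin (2 * m + 3)), Deg H r s := by
  obtain ⟨t, ht⟩ := hr
  obtain ⟨S, h0, -, hS⟩ := Finset.exists_subsuperset_card_eq
    (Finset.singleton_subset_iff.2 (Finset.mem_univ (0 : ZMod (2 * m + 1)))) (n := s)
    (by simpa using hs) (by simpa [ZMod.card] using hsm)
  rw [Finset.singleton_subset_iff] at h0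
  have hadj := adj_inv m S h0
  obtain ⟨U, hU, hc⟩ := exists_closed (inv (2 * m + 1)) (inv_inv' _)
    (fun v => (hadj v).ne') t (by simp [ZMod.card]; omega)
  have := addVertex_deg (sumGraph (2 * m + 1) S) (inv _) (inv_inv' _) hadj U hc s
    (fun v => by rw [sumGraph_degree, hS])
  rw [hU, ← two_mul] at *
  rw [← ht] at this
  exact deg_transfer _ (by simp [ZMod.card]) this

theorem top_degree (n : ℕ) (v : Fin n) [Fintype ((⊤ : SimpleGraph (Fin n)).neighborSet v)] :
    (⊤ : SimpleGraph (Fin n)).degree v = n - 1 := by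
  have : (⊤ : SimpleGraph (Fin n)).neighborFinset v = univ.erase v := by
    ext w
    rw [SimpleGraph.mem_neighborFinset, SimpleGraph.top_adj, Finset.mem_erase]
    simp [ne_comm]
  rw [← SimpleGraph.card_neighborFinset_eq_degree, this, Finset.card_erase_of_mem (mem_univ v),
    Finset.card_univ, Fintype.card_fin]

theorem exists_graph (n r s : ℕ) (hn : 1 ≤ n) (h : Adm n r s) :
    ∃ H : SimpleGraph (Fin n), Deg H r s := by
  obtain ⟨hr, hs, h | h⟩ := h
  · obtain ⟨rfl, h⟩ := h
    rcases Nat.even_or_odd n with hne | hno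
    · obtain ⟨m, hm⟩ : ∃ m, n = 2 * m + 2 := ⟨n / 2 - 1, by obtain ⟨a, ha⟩ := hne; omega⟩
      subst hm
      obtain ⟨S, -, hS⟩ := Finset.exists_subset_card_eq
        (s := (univ : Finset (ZMod (2 * m + 1)))) (n := r) (by simp [ZMod.card]; omega)
      exact deg_transfer (sumGraph (2 * m + 1) S) (by simp [ZMod.card])
        ⟨none, by rw [sumGraph_degree, hS], fun w _ => by rw [sumGraph_degree, hS]⟩
    · have hre : Even r := by
        rcases Nat.even_mul.1 h with h | h
        · exact absurd hno (Nat.not_odd_iff_even.2 h)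
        · exact h
      by_cases h0 : r = 0
      · subst h0
        exact ⟨⊥, ⟨0, hn⟩, by simp, by simp⟩
      · by_cases h1 : r = n - 1
        · exact ⟨⊤, ⟨0, hn⟩, by rw [top_degree, h1], fun w _ => by rw [top_degree, h1]⟩
        · obtain ⟨m, hm⟩ : ∃ m, n = 2 * m + 3 :=
            ⟨n / 2 - 1, by obtain ⟨a, ha⟩ := hno; obtain ⟨b, hb⟩ := hre; omega⟩
          subst hm
          exact exists_almost m r r hre (by omega) (by omega) (by omega)
  · obtain ⟨hno, hre, hso⟩ := h
    obtain ⟨m, hm⟩ : ∃ m, n = 2 * m + 3 :=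
      ⟨n / 2 - 1, by obtain ⟨a, ha⟩ := hno; obtain ⟨b, hb⟩ := hso; omega⟩
    subst hm
    obtain ⟨b, hb⟩ := hso
    exact exists_almost m r s hre (by omega) (by omega) (by omega)

/-! ### Conjugate sequences -/

variable {n : ℕ}

theorem conj_sum (G : SimpleGraph (Fin n)) (k : Fin n) :
    conj G k = ∑ v, if (k : ℕ) + 1 ≤ G.degree v then (1 : ℝ) else 0 := by
  rw [conj, Finset.card_filter]
  push_cast
  rfl

theorem conj_eq_pt (G : SimpleGraph (Fin n)) (r s : ℕ) (h : Deg G r s) : conj G = pt n r s := by
  obtain ⟨v, hv, hw⟩ := h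
  funext k
  rw [conj_sum, ← Finset.add_sum_erase univ _ (mem_univ v), hv,
    Finset.sum_congr rfl fun w hw' => by rw [hw w (Finset.ne_of_mem_erase hw')],
    Finset.sum_const, Finset.card_erase_of_mem (mem_univ v), Finset.card_univ, Fintype.card_fin,
    nsmul_eq_mul, pt, Nat.cast_sub (by have := v.2; omega)]
  split_ifs <;> simp

/-- the linear functional `x ↦ ∑ (S (k + 1) - S k) x k` -/
noncomputable def ell (n : ℕ) (S : ℕ → ℝ) : (Fin n → ℝ) →ₗ[ℝ] ℝ where
  toFun x := ∑ k : Fin n, (S (k + 1) - S k) * x k
  map_add' x y := by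
    rw [← Finset.sum_add_distrib]
    exact Finset.sum_congr rfl fun k _ => by rw [Pi.add_apply]; ring
  map_smul' c x := by
    rw [RingHom.id_apply, smul_eq_mul, Finset.mul_sum]
    exact Finset.sum_congr rfl fun k _ => by rw [Pi.smul_apply, smul_eq_mul]; ring

theorem ell_conj (S : ℕ → ℝ) (G : SimpleGraph (Fin n)) :
    ell n S (conj G) = ∑ v, (S (G.degree v) - S 0) := by
  show ∑ k : Fin n, (S (k + 1) - S k) * conj G k = _
  have h1 : ∀ k : Fin n, (S (k + 1) - S k) * conj G k =
      ∑ v, if (k : ℕ) + 1 ≤ G.degree v then S (k + 1) - S k else 0 := by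
    intro k
    rw [conj_sum, Finset.mul_sum]
    exact Finset.sum_congr rfl fun v _ => by split_ifs <;> simp
  rw [Finset.sum_congr rfl fun k _ => h1 k, Finset.sum_comm]
  refine Finset.sum_congr rfl fun v _ => ?_
  have hd : G.degree v < n := by simpa using G.degree_lt_card_verts v
  rw [Fin.sum_univ_eq_sum_range (fun k => if k + 1 ≤ G.degree v then S (k + 1) - S k else 0) n,
    ← Finset.sum_filter]
  have : (range n).filter (fun k => k + 1 ≤ G.degree v) = range (G.degree v) := by
    ext k
    simp only [Finset.mem_filter, Finset.mem_range]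
    omega
  rw [this, Finset.sum_range_sub]

/-- the weights of the degrees -/
noncomputable def wS (r s m : ℕ) : ℝ := (if m = s then 1 else 0) + if m = s ∨ m = r then 1 else 0

theorem wS_le (r s m : ℕ) : wS r s m ≤ 2 := by
  unfold wS
  split_ifs <;> norm_num

theorem wS_eq (r s m : ℕ) (h : wS r s m = 2) : m = s := by
  unfold wS at h
  split_ifs at h with h1 <;> first | exact h1 | norm_num at h

theorem wS_self (r s : ℕ) : wS r s s = 2 := by
  simp [wS]; norm_num

theorem tot_le (hn : 1 ≤ n) (r s : ℕ) (h : Adm n r s) (G : SimpleGraph (Fin n)) :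
    ∑ v, wS r s (G.degree v) ≤ wS r s r + (n - 1) * 2 ∧
      (∑ v, wS r s (G.degree v) = wS r s r + (n - 1) * 2 → Deg G r s) := by
  have hv : ∃ v, wS r s (G.degree v) ≤ wS r s r ∧
      (wS r s (G.degree v) = wS r s r → G.degree v = r) := by
    obtain ⟨hr, hs, h | h⟩ := h
    · obtain ⟨rfl, h⟩ := h
      exact ⟨⟨0, hn⟩, by rw [wS_self]; exact wS_le _ _ _, fun h => by
        rw [wS_self] at h; exact wS_eq _ _ _ h⟩
    · obtain ⟨hno, hre, hso⟩ := h
      have hne : r ≠ s := fun h => Nat.not_even_iff_odd.2 hso (h ▸ hre)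
      have : ∃ v, G.degree v ≠ s := by
        by_contra hcon
        push Not at hcon
        have h1 := G.even_card_odd_degree_vertices
        have h2 : (univ.filter fun v => Odd (G.degree v)) = univ := by
          ext v
          simp [hcon v, hso]
        rw [h2, Finset.card_univ, Fintype.card_fin] at h1
        exact Nat.not_even_iff_odd.2 hno h1
      obtain ⟨v, hv⟩ := this
      refine ⟨v, ?_, ?_⟩
      · simp only [wS, hv, hne, if_false, false_or]
        split_ifs <;> norm_num
      · simp only [wS, hv, hne, if_false, false_or]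
        split_ifs with h
        · intro _; exact h
        · intro h; norm_num at h
  obtain ⟨v, hv1, hv2⟩ := hv
  rw [← Finset.add_sum_erase univ _ (mem_univ v)]
  have hc : ∑ w ∈ univ.erase v, (2 : ℝ) = (n - 1) * 2 := by
    rw [Finset.sum_const, Finset.card_erase_of_mem (mem_univ v), Finset.card_univ,
      Fintype.card_fin, nsmul_eq_mul, Nat.cast_sub hn]
    simp
  have hle : ∑ w ∈ univ.erase v, wS r s (G.degree w) ≤ ∑ w ∈ univ.erase v, (2 : ℝ) :=
    Finset.sum_le_sum fun w _ => wS_le _ _ _
  rw [hc] at hle
  refine ⟨by linarith, fun heq => ?_⟩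
  have e1 : wS r s (G.degree v) = wS r s r := by linarith
  have e2 : ∑ w ∈ univ.erase v, wS r s (G.degree w) = ∑ w ∈ univ.erase v, (2 : ℝ) := by
    rw [hc]; linarith
  refine ⟨v, hv2 e1, fun w hw => wS_eq r s _ ?_⟩
  exact (Finset.sum_eq_sum_iff_of_le fun w _ => wS_le _ _ _).1 e2 w
    (Finset.mem_erase.2 ⟨hw, mem_univ w⟩)

theorem tot_eq (r s : ℕ) (G : SimpleGraph (Fin n)) (h : Deg G r s) :
    ∑ v, wS r s (G.degree v) = wS r s r + (n - 1) * 2 := by
  obtain ⟨v, hv, hw⟩ := h
  rw [← Finset.add_sum_erase univ _ (mem_univ v), hv,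
    Finset.sum_congr rfl fun w hw' => by rw [hw w (Finset.ne_of_mem_erase hw'), wS_self],
    Finset.sum_const, Finset.card_erase_of_mem (mem_univ v), Finset.card_univ, Fintype.card_fin,
    nsmul_eq_mul, Nat.cast_sub (by have := v.2; omega)]
  simp

/-- a generator that is the only maximum of a linear functional on the generators is an extreme
point of the hull -/
theorem extreme_of_unique {E : Type} [AddCommGroup E] [Module ℝ E] (R : Set E) (l : E →ₗ[ℝ] ℝ)
    (x : E) (hx : x ∈ R) (h : ∀ y ∈ R, l y ≤ l x) (h' : ∀ y ∈ R, l y = l x → y = x) :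
    x ∈ (convexHull ℝ R).extremePoints ℝ := by
  have hD : Convex ℝ {y : E | l y < l x ∨ y = x} := by
    intro y hy z hz a b ha hb hab
    have key : l (a • y + b • z) = a * l y + b * l z := by
      rw [map_add, map_smul, map_smul, smul_eq_mul, smul_eq_mul]
    rcases eq_or_lt_of_le ha with ha0 | ha0
    · subst ha0
      have : b = 1 := by linarith
      subst this
      simpa using hz
    rcases eq_or_lt_of_le hb with hb0 | hb0
    · subst hb0
      have : a = 1 := by linarith
      subst this
      simpa using hy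
    have hb' : b = 1 - a := by linarith
    rcases hy with hy | hy
    · left
      show l (a • y + b • z) < l x
      rw [key]
      have hz' : l z ≤ l x := by
        rcases hz with hz | hz
        · exact hz.le
        · rw [hz]
      have e1 := mul_lt_mul_of_pos_left hy ha0
      have e2 := mul_le_mul_of_nonneg_left hz' hb
      have e3 : a * l x + b * l x = l x := by rw [← add_mul, hab, one_mul]
      linarith
    · rcases hz with hz | hz
      · left
        show l (a • y + b • z) < l x
        rw [key, hy]
        have e1 := mul_lt_mul_of_pos_left hz hb0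
        have e3 : a * l x + b * l x = l x := by rw [← add_mul, hab, one_mul]
        linarith
      · right
        rw [hy, hz, ← add_smul, hab, one_smul]
  have hsub : convexHull ℝ R ⊆ {y : E | l y < l x ∨ y = x} := by
    refine convexHull_min (fun y hy => ?_) hD
    rcases (h y hy).lt_or_eq with h1 | h1
    · exact Or.inl h1
    · exact Or.inr (h' y hy h1)
  refine ⟨subset_convexHull ℝ R hx, fun y hy z hz hxyz => ?_⟩
  obtain ⟨a, b, ha, hb, hab, hx'⟩ := hxyz
  rcases hsub hy with h1 | h1
  · exfalso
    have hz' : l z ≤ l x := by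
      rcases hsub hz with h2 | h2
      · exact h2.le
      · rw [h2]
    have key : l x = a * l y + b * l z := by
      rw [← hx', map_add, map_smul, map_smul, smul_eq_mul, smul_eq_mul]
    have e1 := mul_lt_mul_of_pos_left h1 ha
    have e2 := mul_le_mul_of_nonneg_left hz' hb.le
    have e3 : a * l x + b * l x = l x := by rw [← add_mul, hab, one_mul]
    linarith
  · exact h1

/-- the set of the points `pt n r s`, `(r, s)` admissible -/
def Pts (n : ℕ) : Set (Fin n → ℝ) := {x | ∃ r s, Adm n r s ∧ x = pt n r s}

theorem pt_extreme (hn : 1 ≤ n) (r s : ℕ) (h : Adm n r s) :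
    pt n r s ∈ (C n).extremePoints ℝ := by
  obtain ⟨H, hH⟩ := exists_graph n r s hn h
  rw [← conj_eq_pt H r s hH]
  have hl : ∀ G : SimpleGraph (Fin n), ell n (wS r s) (conj G) =
      ∑ v, wS r s (G.degree v) - ∑ v : Fin n, wS r s 0 := by
    intro G
    rw [ell_conj, Finset.sum_sub_distrib]
  refine extreme_of_unique _ (ell n (wS r s)) _ ⟨H, rfl⟩ ?_ ?_
  · rintro _ ⟨G, rfl⟩
    rw [hl, hl, tot_eq r s H hH]
    exact sub_le_sub_right (tot_le hn r s h G).1 _
  · rintro _ ⟨G, rfl⟩ heq
    rw [hl, hl, tot_eq r s H hH, sub_left_inj] at heq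
    rw [conj_eq_pt H r s hH, conj_eq_pt G r s ((tot_le hn r s h G).2 heq)]

theorem deg_of_eq (hn : 1 ≤ n) (r s : ℕ) (h : Adm n r s) (G : SimpleGraph (Fin n))
    (hG : conj G = pt n r s) : Deg G r s := by
  obtain ⟨H, hH⟩ := exists_graph n r s hn h
  refine (tot_le hn r s h G).2 ?_
  have hl : ∀ G : SimpleGraph (Fin n), ell n (wS r s) (conj G) =
      ∑ v, wS r s (G.degree v) - ∑ v : Fin n, wS r s 0 := by
    intro G
    rw [ell_conj, Finset.sum_sub_distrib]
  have h1 := hl G
  rw [hG, ← conj_eq_pt H r s hH, hl, tot_eq r s H hH] at h1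
  linarith

/-! ### Every conjugate sequence is a convex combination of admissible points -/

theorem conj_mem (hn : 1 ≤ n) (G : SimpleGraph (Fin n)) : conj G ∈ convexHull ℝ (Pts n) := by
  have hd : ∀ v, G.degree v < n := fun v => by simpa using G.degree_lt_card_verts v
  have hn0 : (0 : ℝ) < n := by exact_mod_cast hn
  by_cases hE : ∀ v, Even (n * G.degree v)
  · have h1 : conj G = ∑ v : Fin n, (1 / (n : ℝ)) • pt n (G.degree v) (G.degree v) := by
      funext k
      rw [conj_sum, Finset.sum_apply]
      refine Finset.sum_congr rfl fun v _ => ?_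
      rw [Pi.smul_apply, smul_eq_mul, pt]
      split_ifs
      · field_simp
        ring
      · ring
    rw [h1]
    refine (convex_convexHull ℝ _).sum_mem (fun _ _ => by positivity) ?_ fun v _ =>
      subset_convexHull ℝ _ ⟨_, _, ⟨hd v, hd v, Or.inl ⟨rfl, hE v⟩⟩, rfl⟩
    rw [Finset.sum_const, Finset.card_univ, Fintype.card_fin, nsmul_eq_mul]
    field_simp
  · push Not at hE
    obtain ⟨v₀, hv₀⟩ := hE
    rw [Nat.not_even_iff_odd, Nat.odd_mul] at hv₀
    obtain ⟨hno, hv₀⟩ := hv₀
    have hn1 : (0 : ℝ) < (n : ℝ) - 1 := by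
      have h1 := hd v₀
      have h2 : 1 ≤ G.degree v₀ := hv₀.pos
      have : (2 : ℝ) ≤ n := by exact_mod_cast (by omega : 2 ≤ n)
      linarith
    set Od := univ.filter fun v => Odd (G.degree v) with hOd
    set Ev := univ.filter fun v => ¬ Odd (G.degree v) with hEv
    have hoe : Od.card + Ev.card = n := by
      rw [hOd, hEv, Finset.card_filter_add_card_filter_not, Finset.card_univ, Fintype.card_fin]
    have hOdEven : Even Od.card := G.even_card_odd_degree_vertices
    have hE1 : 1 ≤ Ev.card := by
      rcases Nat.eq_zero_or_pos Ev.card with h | h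
      · rw [h, add_zero] at hoe
        rw [hoe] at hOdEven
        exact absurd hno (Nat.not_odd_iff_even.2 hOdEven)
      · exact h
    obtain ⟨e, he⟩ : ∃ e : ℝ, e = Ev.card := ⟨_, rfl⟩
    obtain ⟨o, ho⟩ : ∃ o : ℝ, o = Od.card := ⟨_, rfl⟩
    have hoe' : o + e = n := by rw [he, ho]; exact_mod_cast hoe
    have he1 : 1 ≤ e := by rw [he]; exact_mod_cast hE1
    have ho0 : 0 ≤ o := by rw [ho]; positivity
    have he0 : 0 < e := by linarith
    let q : ℝ := o / ((n : ℝ) - 1)
    have hq : q * ((n : ℝ) - 1) = o := div_mul_cancel₀ _ hn1.ne'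
    have hq1 : q ≤ 1 := by
      rw [div_le_one hn1]
      linarith
    let Q : Fin n → Fin n → ℝ := fun w => ∑ v,
      (if Odd (G.degree v) then 1 / ((n : ℝ) - 1) else (e - q) / (n * e)) •
        (if Odd (G.degree v) then pt n (G.degree w) (G.degree v)
          else pt n (G.degree w) (G.degree w))
    have hQ : ∀ w ∈ Ev, Q w ∈ convexHull ℝ (Pts n) := by
      intro w hw
      have hwe : ¬ Odd (G.degree w) := (Finset.mem_filter.1 hw).2
      have hwe' : Even (G.degree w) := Nat.not_odd_iff_even.1 hwe
      refine (convex_convexHull ℝ _).sum_mem (fun v _ => ?_) ?_ fun v _ => ?_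
      · split_ifs
        · positivity
        · exact div_nonneg (by linarith) (by positivity)
      · rw [Finset.sum_ite, Finset.sum_const, Finset.sum_const, nsmul_eq_mul, nsmul_eq_mul,
          ← hOd, ← hEv, ← ho, ← he]
        have : o * (1 / ((n : ℝ) - 1)) = q := by rw [mul_one_div]
        rw [this]
        field_simp
        linarith
      · refine subset_convexHull ℝ _ ?_
        split_ifs with h
        · exact ⟨_, _, ⟨hd w, hd v, Or.inr ⟨hno, hwe', h⟩⟩, rfl⟩
        · exact ⟨_, _, ⟨hd w, hd w, Or.inl ⟨rfl, hwe'.mul_left _⟩⟩, rfl⟩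
    have hI : conj G = ∑ w ∈ Ev, (1 / e) • Q w := by
      funext k
      rw [conj_sum, Finset.sum_apply]
      have hQk : ∀ w, Q w k = (∑ v ∈ Od, if (k : ℕ) + 1 ≤ G.degree v then (1 : ℝ) else 0) +
          e * (if (k : ℕ) + 1 ≤ G.degree w then (1 : ℝ) else 0) := by
        intro w
        have h1 : ∀ v, ((if Odd (G.degree v) then 1 / ((n : ℝ) - 1) else (e - q) / (n * e)) •
            (if Odd (G.degree v) then pt n (G.degree w) (G.degree v)
              else pt n (G.degree w) (G.degree w))) k =
            if Odd (G.degree v) then (if (k : ℕ) + 1 ≤ G.degree v then (1 : ℝ) else 0) +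
              1 / ((n : ℝ) - 1) * (if (k : ℕ) + 1 ≤ G.degree w then (1 : ℝ) else 0)
            else (e - q) / e * (if (k : ℕ) + 1 ≤ G.degree w then (1 : ℝ) else 0) := by
          intro v
          rw [Pi.smul_apply, smul_eq_mul]
          by_cases h : Odd (G.degree v)
          · simp only [h, if_true, pt]
            split_ifs <;> field_simp <;> ring
          · simp only [h, if_false, pt]
            split_ifs
            · field_simp
              ring
            · ring
        simp only [Q]
        rw [Finset.sum_apply, Finset.sum_congr rfl fun v _ => h1 v, Finset.sum_ite, ← hOd, ← hEv,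
          Finset.sum_add_distrib, Finset.sum_const, Finset.sum_const, nsmul_eq_mul, nsmul_eq_mul,
          ← ho, ← he]
        have : o * (1 / ((n : ℝ) - 1) * (if (k : ℕ) + 1 ≤ G.degree w then (1 : ℝ) else 0)) =
            q * (if (k : ℕ) + 1 ≤ G.degree w then (1 : ℝ) else 0) := by
          rw [← mul_assoc, mul_one_div]
        rw [this]
        field_simp
        ring
      have h2 : ∀ w, ((1 / e) • Q w) k =
          1 / e * (∑ v ∈ Od, if (k : ℕ) + 1 ≤ G.degree v then (1 : ℝ) else 0) +
          (if (k : ℕ) + 1 ≤ G.degree w then (1 : ℝ) else 0) := by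
        intro w
        rw [Pi.smul_apply, smul_eq_mul, hQk]
        field_simp
      rw [Finset.sum_congr rfl fun w _ => h2 w, Finset.sum_add_distrib, Finset.sum_const,
        nsmul_eq_mul, ← he, ← mul_assoc, mul_one_div_cancel he0.ne', one_mul,
        ← Finset.sum_filter_add_sum_filter_not univ (fun v => Odd (G.degree v))]
    rw [hI]
    refine (convex_convexHull ℝ _).sum_mem (fun _ _ => by positivity) ?_ fun w hw => hQ w hw
    rw [Finset.sum_const, nsmul_eq_mul, ← he]
    field_simp

theorem pts_sub (hn : 1 ≤ n) : Pts n ⊆ Set.range (conj (n := n)) := by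
  rintro _ ⟨r, s, h, rfl⟩
  obtain ⟨H, hH⟩ := exists_graph n r s hn h
  exact ⟨H, conj_eq_pt H r s hH⟩

theorem extreme_eq (hn : 1 ≤ n) : (C n).extremePoints ℝ = Pts n := by
  apply Set.Subset.antisymm
  · have : C n = convexHull ℝ (Pts n) := by
      apply Set.Subset.antisymm
      · refine convexHull_min ?_ (convex_convexHull ℝ _)
        rintro _ ⟨G, rfl⟩
        exact conj_mem hn G
      · exact convexHull_mono (pts_sub hn)
    rw [this]
    exact extremePoints_convexHull_subset
  · rintro _ ⟨r, s, h, rfl⟩
    exact pt_extreme hn r s h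

/-- The extreme points of `C_n`, and the graphs giving them. For even `n` the extreme points are the
`n` sequences `(n, …, n, 0, …, 0)` (conjugates of constant sequences) and the graphs are the regular
graphs; for odd `n` they are the conjugates of the constant sequences with even term and of the
sequences with one even term `r` and `n - 1` odd terms `s`, and the graphs are the regular graphs
and the graphs with one vertex of even degree whose other vertices all have the same odd degree. -/
theorem result (n : ℕ) (hn : 1 ≤ n) :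
    (Even n → (C n).extremePoints ℝ = {x | ∃ r < n, x = pt n r r}) ∧
    (Odd n → (C n).extremePoints ℝ =
      {x | ∃ r < n, Even r ∧ (x = pt n r r ∨ ∃ s < n, Odd s ∧ x = pt n r s)}) ∧
    ∀ G : SimpleGraph (Fin n), conj G ∈ (C n).extremePoints ℝ ↔
      (∃ r, ∀ v, G.degree v = r) ∨
        (Odd n ∧ ∃ v, Even (G.degree v) ∧ ∃ s, Odd s ∧ ∀ w ≠ v, G.degree w = s) := by
  rw [extreme_eq hn]
  refine ⟨fun hne => ?_, fun hno => ?_, fun G => ⟨?_, ?_⟩⟩
  · ext x
    constructor
    · rintro ⟨r, s, ⟨hr, hs, h | h⟩, rfl⟩
      · exact ⟨r, hr, by rw [h.1]⟩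
      · exact absurd h.1 (Nat.not_odd_iff_even.2 hne)
    · rintro ⟨r, hr, rfl⟩
      exact ⟨r, r, ⟨hr, hr, Or.inl ⟨rfl, hne.mul_right _⟩⟩, rfl⟩
  · ext x
    constructor
    · rintro ⟨r, s, ⟨hr, hs, h | h⟩, rfl⟩
      · refine ⟨r, hr, ?_, Or.inl (by rw [h.1])⟩
        rcases Nat.even_mul.1 h.2 with h | h
        · exact absurd hno (Nat.not_odd_iff_even.2 h)
        · exact h
      · exact ⟨r, hr, h.2.1, Or.inr ⟨s, hs, h.2.2, rfl⟩⟩
    · rintro ⟨r, hr, hre, rfl | ⟨s, hs, hso, rfl⟩⟩
      · exact ⟨r, r, ⟨hr, hr, Or.inl ⟨rfl, hre.mul_left _⟩⟩, rfl⟩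
      · exact ⟨r, s, ⟨hr, hs, Or.inr ⟨hno, hre, hso⟩⟩, rfl⟩
  · rintro ⟨r, s, h, hG⟩
    obtain ⟨v, hv, hw⟩ := deg_of_eq hn r s h G hG
    obtain ⟨hr, hs, h | h⟩ := h
    · left
      refine ⟨s, fun w => ?_⟩
      by_cases hwv : w = v
      · rw [hwv, hv, h.1]
      · exact hw w hwv
    · exact Or.inr ⟨h.1, v, by rw [hv]; exact h.2.1, s, h.2.2, hw⟩
  · have hd : ∀ v, G.degree v < n := fun v => by simpa using G.degree_lt_card_verts v
    have hreg : (∃ r, ∀ v, G.degree v = r) → conj G ∈ Pts n := by
      rintro ⟨r, h⟩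
      have hr : r < n := by rw [← h ⟨0, hn⟩]; exact hd _
      refine ⟨r, r, ⟨hr, hr, Or.inl ⟨rfl, ?_⟩⟩,
        conj_eq_pt G r r ⟨⟨0, hn⟩, h _, fun w _ => h w⟩⟩
      have h1 := G.sum_degrees_eq_twice_card_edges
      rw [Finset.sum_congr rfl fun v _ => h v, Finset.sum_const, Finset.card_univ,
        Fintype.card_fin, smul_eq_mul] at h1
      rw [h1]
      exact even_two_mul _
    rintro (h | ⟨hno, v, hv, s, hs, hw⟩)
    · exact hreg h
    · by_cases h1 : ∃ w, w ≠ v
      · obtain ⟨w, hwv⟩ := h1
        exact ⟨G.degree v, s, ⟨hd v, by rw [← hw w hwv]; exact hd w, Or.inr ⟨hno, hv, hs⟩⟩,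
          conj_eq_pt G _ _ ⟨v, rfl, hw⟩⟩
      · push Not at h1
        exact hreg ⟨G.degree v, fun w => by rw [h1 w]⟩

end Pool.Agent.Results.MP_1867d3_co.ExtremePoints
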